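import Pool.Agent.helper40.SU.SpecB

/-! Row EPJ of SU. -/

set_option autoImplicit false

open Finset

namespace Pool.Agent.SU

theorem EPJ_gcd_pow {D p b : ℕ} (hD : Squarefree D) (hp : p.Prime) (hb : 1 ≤ b) :
    D.gcd (p ^ b) = if p ∣ D then p else 1 := by
  split_ifs with h
  · obtain ⟨m, rfl⟩ := h
    obtain ⟨c, rfl⟩ : ∃ c, b = c + 1 := ⟨b - 1, by omega⟩
    have hc : p.Coprime m := Nat.coprime_of_squarefree_mul hD
    rw [pow_succ', Nat.gcd_mul_left]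
    have h1 : m.Coprime (p ^ c) := (hc.symm).pow_right c
    rw [Nat.coprime_iff_gcd_eq_one.1 h1, mul_one]
  · exact ((hp.coprime_iff_not_dvd.2 h).symm.pow_right b)

theorem EPJ_wj_mul {a b : ℕ} (h : a.Coprime b) : wj (a * b) = wj a * wj b := by
  unfold wj om
  rw [h.primeFactors_mul, Finset.card_union_of_disjoint h.disjoint_primeFactors,
    Finset.prod_union h.disjoint_primeFactors, Nat.cast_mul, Real.sqrt_mul (Nat.cast_nonneg _), pow_add,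
    ← mul_div_mul_comm]
  congr 1
  ring

theorem EPJ_gw_mul {D a b : ℕ} (h : a.Coprime b) : gw D (a * b) = gw D a * gw D b := by
  unfold gw
  rw [h.gcd_mul, Nat.cast_mul, Real.mul_rpow (Nat.cast_nonneg _) (Nat.cast_nonneg _)]

/-- the function -/
noncomputable def EPJ_F (D D' j : ℕ) : ℝ := wj j * (j : ℝ) ^ (1 / 10 : ℝ) * gw D j * gw D' j

theorem EPJ_F_nonneg (D D' j : ℕ) : 0 ≤ EPJ_F D D' j := by
  unfold EPJ_F wj gw
  positivity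

theorem EPJ_F_one (D D' : ℕ) : EPJ_F D D' 1 = 1 := by
  unfold EPJ_F wj gw om
  simp

theorem EPJ_F_mul (D D' a b : ℕ) (h : a.Coprime b) : EPJ_F D D' (a * b) = EPJ_F D D' a * EPJ_F D D' b := by
  unfold EPJ_F
  rw [EPJ_wj_mul h, EPJ_gw_mul h, EPJ_gw_mul h, Nat.cast_mul,
    Real.mul_rpow (Nat.cast_nonneg _) (Nat.cast_nonneg _)]
  ring

/-- the value of the gcd weight at a prime power -/
noncomputable def EPJ_g (D p : ℕ) : ℝ := if p ∣ D then (p : ℝ) ^ (3 / 4 : ℝ) else 1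

theorem EPJ_gw_pow {D p b : ℕ} (hD : Squarefree D) (hp : p.Prime) (hb : 1 ≤ b) : gw D (p ^ b) = EPJ_g D p := by
  unfold gw EPJ_g
  rw [EPJ_gcd_pow hD hp hb]
  split_ifs with h
  · rfl
  · simp

theorem EPJ_F_pow {D D' p b : ℕ} (hD : Squarefree D) (hD' : Squarefree D') (hp : p.Prime) (hb : 1 ≤ b) :
    EPJ_F D D' (p ^ b) = 2 * (p : ℝ)⁻¹ * (EPJ_g D p * EPJ_g D' p) * ((p : ℝ) ^ (-(2 / 5) : ℝ)) ^ b := by
  have hp0 : (0 : ℝ) < p := by exact_mod_cast hp.pos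
  have hy : (0 : ℝ) < (p : ℝ) ^ b := pow_pos hp0 b
  unfold EPJ_F
  rw [EPJ_gw_pow hD hp hb, EPJ_gw_pow hD' hp hb]
  unfold wj om
  rw [Nat.primeFactors_prime_pow (by omega) hp, Finset.card_singleton, Finset.prod_singleton, pow_one,
    Nat.cast_pow, Real.sqrt_eq_rpow]
  have h1 : ((p : ℝ) ^ (-(2 / 5) : ℝ)) ^ b = ((p : ℝ) ^ b) ^ (-(2 / 5) : ℝ) := by
    rw [← Real.rpow_natCast, ← Real.rpow_natCast, ← Real.rpow_mul hp0.le, ← Real.rpow_mul hp0.le, mul_comm]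
  have h2 : ((p : ℝ) ^ b) ^ (-(2 / 5) : ℝ) = (((p : ℝ) ^ b) ^ (1 / 2 : ℝ))⁻¹ * ((p : ℝ) ^ b) ^ (1 / 10 : ℝ) := by
    rw [← Real.rpow_neg hy.le, ← Real.rpow_add hy]
    norm_num
  rw [h1, h2]
  have h3 : (((p : ℝ) ^ b) ^ (1 / 2 : ℝ)) ≠ 0 := (Real.rpow_pos_of_pos hy _).ne'
  field_simp

theorem EPJ_geom (x : ℝ) (h0 : 0 ≤ x) (h1 : x ≤ 1 / 2) (N : ℕ) : ∑ b ∈ Icc 1 N, x ^ b ≤ 2 * x := by
  have h2 : ∀ N : ℕ, ∑ b ∈ Icc 1 N, x ^ b ≤ 2 * x - 2 * x ^ (N + 1) := by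
    intro N
    induction N with
    | zero => simp
    | succ n ih =>
      rw [Finset.sum_Icc_succ_top (by omega)]
      have h3 : x ^ (n + 1 + 1) ≤ 1 / 2 * x ^ (n + 1) := by
        rw [pow_succ' x (n + 1)]
        exact mul_le_mul_of_nonneg_right h1 (pow_nonneg h0 _)
      linarith
  have h3 := h2 N
  have h4 : 0 ≤ x ^ (N + 1) := pow_nonneg h0 _
  linarith

theorem EPJ_loc {D D' p N : ℕ} (hD : Squarefree D) (hD' : Squarefree D') (hp : p.Prime) (hp16 : 16 ≤ p) :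
    1 + ∑ b ∈ Icc 1 N, EPJ_F D D' (p ^ b) ≤ (1 + 4 * (p : ℝ) ^ (-(7 / 5) : ℝ)) *
      ((if p ∣ D then 2 else 1) * (if p ∣ D' then 2 else 1) *
        (if p ∣ D ∧ p ∣ D' then 5 * (p : ℝ) ^ (1 / 10 : ℝ) else 1)) := by
  have hp0 : (0 : ℝ) < p := by exact_mod_cast hp.pos
  have hpr : (16 : ℝ) ≤ p := by exact_mod_cast hp16
  have hp1 : (1 : ℝ) ≤ p := by linarith
  have h16 : (16 : ℝ) ^ (-(1 / 4) : ℝ) = 1 / 2 := by
    rw [show (16 : ℝ) = 2 ^ (4 : ℝ) by norm_num, ← Real.rpow_mul (by norm_num)]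
    norm_num
  have h162 : (16 : ℝ) ^ (-(1 / 2) : ℝ) = 1 / 4 := by
    rw [show (16 : ℝ) = 4 ^ (2 : ℝ) by norm_num, ← Real.rpow_mul (by norm_num)]
    norm_num
  have hx : (p : ℝ) ^ (-(2 / 5) : ℝ) ≤ 1 / 2 := by
    calc (p : ℝ) ^ (-(2 / 5) : ℝ) ≤ (p : ℝ) ^ (-(1 / 4) : ℝ) := Real.rpow_le_rpow_of_exponent_le hp1 (by norm_num)
      _ ≤ (16 : ℝ) ^ (-(1 / 4) : ℝ) := Real.rpow_le_rpow_of_nonpos (by norm_num) hpr (by norm_num)
      _ = 1 / 2 := h16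
  have hx0 : 0 ≤ (p : ℝ) ^ (-(2 / 5) : ℝ) := Real.rpow_nonneg hp0.le _
  have hy : (p : ℝ) ^ (-(1 / 2) : ℝ) ≤ 1 / 4 := by
    calc (p : ℝ) ^ (-(1 / 2) : ℝ) ≤ (16 : ℝ) ^ (-(1 / 2) : ℝ) := Real.rpow_le_rpow_of_nonpos (by norm_num) hpr (by norm_num)
      _ = 1 / 4 := h162
  have hs : ∑ b ∈ Icc 1 N, EPJ_F D D' (p ^ b) ≤
      4 * (p : ℝ) ^ (-(7 / 5) : ℝ) * (EPJ_g D p * EPJ_g D' p) := by
    have h1 : ∑ b ∈ Icc 1 N, EPJ_F D D' (p ^ b) =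
        2 * (p : ℝ)⁻¹ * (EPJ_g D p * EPJ_g D' p) * ∑ b ∈ Icc 1 N, ((p : ℝ) ^ (-(2 / 5) : ℝ)) ^ b := by
      rw [Finset.mul_sum]
      exact Finset.sum_congr rfl fun b hb => EPJ_F_pow hD hD' hp (Finset.mem_Icc.1 hb).1
    rw [h1]
    have hg : 0 ≤ 2 * (p : ℝ)⁻¹ * (EPJ_g D p * EPJ_g D' p) := by
      have h2 : ∀ E : ℕ, 0 ≤ EPJ_g E p := by
        intro E
        unfold EPJ_g
        split_ifs
        · positivity
        · norm_num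
      have := h2 D
      have := h2 D'
      positivity
    have h3 : (p : ℝ) ^ (-(7 / 5) : ℝ) = (p : ℝ)⁻¹ * (p : ℝ) ^ (-(2 / 5) : ℝ) := by
      rw [← Real.rpow_neg_one, ← Real.rpow_add hp0]
      norm_num
    calc 2 * (p : ℝ)⁻¹ * (EPJ_g D p * EPJ_g D' p) * ∑ b ∈ Icc 1 N, ((p : ℝ) ^ (-(2 / 5) : ℝ)) ^ b
        ≤ 2 * (p : ℝ)⁻¹ * (EPJ_g D p * EPJ_g D' p) * (2 * (p : ℝ) ^ (-(2 / 5) : ℝ)) :=
          mul_le_mul_of_nonneg_left (EPJ_geom _ hx0 hx N) hg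
      _ = 4 * (p : ℝ) ^ (-(7 / 5) : ℝ) * (EPJ_g D p * EPJ_g D' p) := by
          rw [h3]
          ring
  have ha : 0 ≤ (p : ℝ) ^ (-(7 / 5) : ℝ) := Real.rpow_nonneg hp0.le _
  have hb1 : 4 * (p : ℝ) ^ (-(7 / 5) : ℝ) * (p : ℝ) ^ (3 / 4 : ℝ) ≤ 1 := by
    have h1 : (p : ℝ) ^ (-(7 / 5) : ℝ) * (p : ℝ) ^ (3 / 4 : ℝ) ≤ (p : ℝ) ^ (-(1 / 2) : ℝ) := by
      rw [← Real.rpow_add hp0]
      exact Real.rpow_le_rpow_of_exponent_le hp1 (by norm_num)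
    nlinarith
  have hb2 : (p : ℝ) ^ (-(7 / 5) : ℝ) * ((p : ℝ) ^ (3 / 4 : ℝ) * (p : ℝ) ^ (3 / 4 : ℝ)) = (p : ℝ) ^ (1 / 10 : ℝ) := by
    rw [← Real.rpow_add hp0, ← Real.rpow_add hp0]
    norm_num
  have hb3 : 1 ≤ (p : ℝ) ^ (1 / 10 : ℝ) := Real.one_le_rpow hp1 (by norm_num)
  unfold EPJ_g at hs
  by_cases h1 : p ∣ D <;> by_cases h2 : p ∣ D'
  · simp only [h1, h2, if_true, and_self] at hs ⊢
    have h3 : 4 * (p : ℝ) ^ (-(7 / 5) : ℝ) * ((p : ℝ) ^ (3 / 4 : ℝ) * (p : ℝ) ^ (3 / 4 : ℝ)) =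
        4 * (p : ℝ) ^ (1 / 10 : ℝ) := by
      rw [mul_assoc, hb2]
    rw [h3] at hs
    nlinarith
  · simp only [h1, h2, if_true, if_false, and_false, mul_one] at hs ⊢
    nlinarith
  · simp only [h1, h2, if_true, if_false, false_and, mul_one, one_mul] at hs ⊢
    nlinarith
  · simp only [h1, h2, if_false, and_self, mul_one] at hs ⊢
    linarith

theorem EPJ_prod_ite (P : Finset ℕ) (D : ℕ) (hD : D ≠ 0) (hP : ∀ p ∈ P, p.Prime) (f : ℕ → ℝ)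
    (hf : ∀ p, p.Prime → 1 ≤ f p) :
    ∏ p ∈ P, (if p ∣ D then f p else 1) ≤ ∏ p ∈ D.primeFactors, f p := by
  rw [← Finset.prod_filter]
  have h1 : P.filter (fun p => p ∣ D) ⊆ D.primeFactors := by
    intro p hp
    rw [Finset.mem_filter] at hp
    exact Nat.mem_primeFactors.2 ⟨hP p hp.1, hp.2, hD⟩
  have h2 : 1 ≤ ∏ p ∈ D.primeFactors \ P.filter (fun p => p ∣ D), f p := by
    have h3 := Finset.prod_le_prod (s := D.primeFactors \ P.filter (fun p => p ∣ D)) (f := fun _ => (1 : ℝ)) (g := f)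
      (fun _ _ => zero_le_one) (fun p hp => hf p (Nat.prime_of_mem_primeFactors (Finset.mem_sdiff.1 hp).1))
    rw [Finset.prod_const_one] at h3
    exact h3
  have h3 : 0 ≤ ∏ p ∈ P.filter (fun p => p ∣ D), f p :=
    Finset.prod_nonneg fun p hp => zero_le_one.trans (hf p (hP p (Finset.mem_filter.1 hp).1))
  rw [← Finset.prod_sdiff h1]
  exact le_mul_of_one_le_left h3 h2

theorem EPJ (hEUP : EUP_stmt) : EPJ_stmt := by
  have hsum : Summable (fun n : ℕ => (n : ℝ) ^ (-(7 / 5) : ℝ)) := Real.summable_nat_rpow.2 (by norm_num)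
  have hlog : 0 < Real.log 2 / 4 := by
    have := Real.log_pos (by norm_num : (1 : ℝ) < 2)
    positivity
  obtain ⟨s, hs⟩ := summable_iff_vanishing_norm.1 hsum (Real.log 2 / 4) hlog
  refine ⟨max 16 (s.sup id), ?_⟩
  intro Z hZ q hq D D' N hD hD'
  have hZ16 : 16 ≤ Z := (le_max_left _ _).trans hZ
  have hZs : s.sup id ≤ Z := (le_max_right _ _).trans hZ
  have h1 := hEUP (EPJ_F D D') (EPJ_F_nonneg D D') (EPJ_F_one D D') (EPJ_F_mul D D') q N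
  refine le_trans h1 ?_
  set P := (cop q N).filter Nat.Prime with hP
  have hPp : ∀ p ∈ P, p.Prime := fun p hp => (Finset.mem_filter.1 hp).2
  have hPZ : ∀ p ∈ P, Z < p := by
    intro p hp
    by_contra hcon
    have h2 := hq p (hPp p hp) (not_lt.1 hcon)
    have h3 : p.Coprime (2 * q) := by
      have h4 := (Finset.mem_filter.1 hp).1
      unfold cop at h4
      exact (Finset.mem_filter.1 h4).2
    have h5 := Nat.Coprime.eq_one_of_dvd h3 h2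
    exact (hPp p hp).one_lt.ne' h5
  have h2 : ∏ p ∈ P, (1 + ∑ b ∈ Icc 1 N, EPJ_F D D' (p ^ b)) ≤
      ∏ p ∈ P, ((1 + 4 * (p : ℝ) ^ (-(7 / 5) : ℝ)) *
      ((if p ∣ D then 2 else 1) * (if p ∣ D' then 2 else 1) *
        (if p ∣ D ∧ p ∣ D' then 5 * (p : ℝ) ^ (1 / 10 : ℝ) else 1))) := by
    apply Finset.prod_le_prod
    · intro p _
      have : 0 ≤ ∑ b ∈ Icc 1 N, EPJ_F D D' (p ^ b) := Finset.sum_nonneg fun b _ => EPJ_F_nonneg D D' _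
      linarith
    · intro p hp
      exact EPJ_loc hD hD' (hPp p hp) (hZ16.trans (hPZ p hp).le)
  refine h2.trans ?_
  rw [Finset.prod_mul_distrib, Finset.prod_mul_distrib, Finset.prod_mul_distrib]
  have hA : ∏ p ∈ P, (1 + 4 * (p : ℝ) ^ (-(7 / 5) : ℝ)) ≤ 2 := by
    have h3 : Disjoint P s := by
      rw [Finset.disjoint_left]
      intro p hp hps
      have h4 : p ≤ s.sup id := Finset.le_sup (f := id) hps
      exact absurd (hPZ p hp) (not_lt.2 (h4.trans hZs))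
    have h4 := hs P h3
    rw [Real.norm_eq_abs] at h4
    have h5 := (le_abs_self _).trans_lt h4
    calc ∏ p ∈ P, (1 + 4 * (p : ℝ) ^ (-(7 / 5) : ℝ)) ≤ ∏ p ∈ P, Real.exp (4 * (p : ℝ) ^ (-(7 / 5) : ℝ)) := by
          apply Finset.prod_le_prod
          · intro p _
            positivity
          · intro p _
            rw [add_comm]
            exact Real.add_one_le_exp _
      _ = Real.exp (4 * ∑ p ∈ P, (p : ℝ) ^ (-(7 / 5) : ℝ)) := by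
          rw [Finset.mul_sum, Real.exp_sum]
      _ ≤ Real.exp (Real.log 2) := by
          apply Real.exp_le_exp.2
          linarith
      _ = 2 := Real.exp_log (by norm_num)
  have hB : ∀ E : ℕ, Squarefree E → ∏ p ∈ P, (if p ∣ E then (2 : ℝ) else 1) ≤ 2 ^ (om E) := by
    intro E hE
    have h3 := EPJ_prod_ite P E hE.ne_zero hPp (fun _ => 2) (fun _ _ => by norm_num)
    rw [Finset.prod_const] at h3
    exact h3
  have hC : ∏ p ∈ P, (if p ∣ D ∧ p ∣ D' then 5 * (p : ℝ) ^ (1 / 10 : ℝ) else 1) ≤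
      5 ^ (om (D.gcd D')) * ((D.gcd D' : ℕ) : ℝ) ^ (1 / 10 : ℝ) := by
    have hgs : Squarefree (D.gcd D') := hD.squarefree_of_dvd (Nat.gcd_dvd_left _ _)
    have h3 := EPJ_prod_ite P (D.gcd D') hgs.ne_zero hPp (fun p => 5 * (p : ℝ) ^ (1 / 10 : ℝ)) (by
      intro p hp
      have h4 : (1 : ℝ) ≤ p := by exact_mod_cast hp.one_lt.le
      have h5 : 1 ≤ (p : ℝ) ^ (1 / 10 : ℝ) := Real.one_le_rpow h4 (by norm_num)
      linarith)
    rw [Finset.prod_mul_distrib, Finset.prod_const] at h3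
    have h4 : ∏ p ∈ (D.gcd D').primeFactors, (p : ℝ) ^ (1 / 10 : ℝ) = ((D.gcd D' : ℕ) : ℝ) ^ (1 / 10 : ℝ) := by
      rw [Real.finsetProd_rpow _ _ (fun p _ => Nat.cast_nonneg p), ← Nat.cast_prod,
        Nat.prod_primeFactors_of_squarefree hgs]
    rw [h4] at h3
    simp only [Nat.dvd_gcd_iff] at h3
    exact h3
  have hA0 : 0 ≤ ∏ p ∈ P, (1 + 4 * (p : ℝ) ^ (-(7 / 5) : ℝ)) := Finset.prod_nonneg fun p _ => by positivity
  have hB0 : ∀ E : ℕ, 0 ≤ ∏ p ∈ P, (if p ∣ E then (2 : ℝ) else 1) := fun E => Finset.prod_nonneg fun p _ => by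
    split_ifs <;> norm_num
  have hC0 : 0 ≤ ∏ p ∈ P, (if p ∣ D ∧ p ∣ D' then 5 * (p : ℝ) ^ (1 / 10 : ℝ) else 1) :=
    Finset.prod_nonneg fun p _ => by
      split_ifs
      · positivity
      · norm_num
  calc (∏ p ∈ P, (1 + 4 * (p : ℝ) ^ (-(7 / 5) : ℝ))) *
      ((∏ p ∈ P, (if p ∣ D then (2 : ℝ) else 1)) * (∏ p ∈ P, (if p ∣ D' then (2 : ℝ) else 1)) *
        ∏ p ∈ P, (if p ∣ D ∧ p ∣ D' then 5 * (p : ℝ) ^ (1 / 10 : ℝ) else 1))
      ≤ 2 * (2 ^ (om D) * 2 ^ (om D') * (5 ^ (om (D.gcd D')) * ((D.gcd D' : ℕ) : ℝ) ^ (1 / 10 : ℝ))) := by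
        apply mul_le_mul hA _ _ (by norm_num)
        · apply mul_le_mul _ hC hC0 (by positivity)
          exact mul_le_mul (hB D hD) (hB D' hD') (hB0 D') (by positivity)
        · exact mul_nonneg (mul_nonneg (hB0 D) (hB0 D')) hC0
    _ = 2 * 2 ^ (om D) * 2 ^ (om D') * 5 ^ (om (D.gcd D')) * ((D.gcd D' : ℕ) : ℝ) ^ (1 / 10 : ℝ) := by ring

end Pool.Agent.SU
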